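import Pool.Agent.Helper606.CA2.P_main2

/-!
# MP_b87ea9_an : positive curvature of class C^1 does not guarantee a convex caustic

The definitions used by the statement (`Supports`, `IsTable`, `BoundaryCurve`, `IsBilliardPath`,
`IsConvexCaustic`, `PP`) are in `Pool/Agent/Helper606/CA/Stmt.lean`.
-/

set_option autoImplicit false

namespace Pool.Agent.Results.MP_b87ea9_an.NotPOne

open Pool.Agent.Helper606.CA

/-- `P(1)` fails: there is a table whose curvature is continuously differentiable and positive
everywhere and which has no convex caustic.  Hence the smallest `m` for which `P(m)` holds is at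
least `2`. -/
theorem result : ¬ PP 1 ∧ ∀ m : ℕ, PP m → 2 ≤ m := main2

end Pool.Agent.Results.MP_b87ea9_an.NotPOne
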