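import Pool.Agent.Helper606.CA.P_main

/-!
# MP_b87ea9_an : continuous positive curvature does not guarantee a convex caustic

The definitions used by the statement (`Supports`, `IsTable`, `BoundaryCurve`, `IsBilliardPath`,
`IsConvexCaustic`, `PP`) are in `Pool/Agent/Helper606/CA/Stmt.lean`.
-/

set_option autoImplicit false

namespace Pool.Agent.Results.MP_b87ea9_an.NotPZero

open Pool.Agent.Helper606.CA

/-- `P(0)` fails: there is a table whose curvature is continuous and positive everywhere and which has
no convex caustic.  Hence the smallest `m` for which `P(m)` holds is at least `1`. -/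
theorem result : ¬ PP 0 ∧ ∀ m : ℕ, PP m → 1 ≤ m := main

end Pool.Agent.Results.MP_b87ea9_an.NotPZero
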